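import Pool.Agent.DQ2.Stmts

set_option autoImplicit false

open MvPolynomial

namespace Pool.Agent.DQ2.H4

open Pool.Agent.DQ2

section

variable {R : Type} [CommRing R] {N : ℕ}

theorem lf_add (F G : MvPolynomial (Fin N) R) (x y : Fin N → R) :
    lf (F + G) x y = lf F x y + lf G x y := by
  unfold lf
  rw [← Finset.sum_add_distrib]
  refine Finset.sum_congr rfl fun j _ => ?_
  rw [map_add, map_add]
  ring

theorem lf_zero (x y : Fin N → R) : lf (0 : MvPolynomial (Fin N) R) x y = 0 := by
  unfold lf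
  simp

theorem lf_mul (F G : MvPolynomial (Fin N) R) (x y : Fin N → R) :
    lf (F * G) x y = lf F x y * eval x G + eval x F * lf G x y := by
  unfold lf
  rw [Finset.sum_mul, Finset.mul_sum, ← Finset.sum_add_distrib]
  refine Finset.sum_congr rfl fun j _ => ?_
  rw [pderiv_mul, map_add, map_mul, map_mul]
  ring

theorem lf_C (c : R) (x y : Fin N → R) : lf (C c : MvPolynomial (Fin N) R) x y = 0 := by
  unfold lf
  simp

theorem lf_X (i : Fin N) (x y : Fin N → R) : lf (X i : MvPolynomial (Fin N) R) x y = y i := by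
  unfold lf
  rw [Finset.sum_eq_single i]
  · simp
  · intro j _ hj
    rw [pderiv_X_of_ne (Ne.symm hj)]
    simp
  · intro h
    exact absurd (Finset.mem_univ i) h

theorem lf_lin (F : MvPolynomial (Fin N) R) (x y z : Fin N → R) (s t : R) :
    lf F x (fun j => s * y j + t * z j) = s * lf F x y + t * lf F x z := by
  unfold lf
  rw [Finset.mul_sum, Finset.mul_sum, ← Finset.sum_add_distrib]
  refine Finset.sum_congr rfl fun j _ => ?_
  ring

/-- Monomials of degree two. -/
theorem mon2 (m : Fin N →₀ ℕ) (c : R) (hm : m.degree = 2) :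
    ∃ i j : Fin N, monomial m c = C c * X i * X j := by
  have h1 : Multiset.card (Finsupp.toMultiset m) = 2 := by
    rw [Finsupp.card_toMultiset]
    rw [← hm]
    simp [Finsupp.degree, Finsupp.sum]
  obtain ⟨i, j, hij⟩ := Multiset.card_eq_two.mp h1
  have h2 : m = Finsupp.single i 1 + Finsupp.single j 1 := by
    classical
    rw [← Finsupp.toMultiset_toFinsupp m, ← Finsupp.toMultiset_toFinsupp (Finsupp.single i 1 + _)]
    congr 1
    rw [hij, map_add, Finsupp.toMultiset_single, Finsupp.toMultiset_single]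
    simp
  refine ⟨i, j, ?_⟩
  rw [h2, X, X, C_mul_monomial, monomial_mul]
  simp

/-- Monomials of degree three. -/
theorem mon3 (m : Fin N →₀ ℕ) (c : R) (hm : m.degree = 3) :
    ∃ i j k : Fin N, monomial m c = C c * X i * X j * X k := by
  have h1 : Multiset.card (Finsupp.toMultiset m) = 3 := by
    rw [Finsupp.card_toMultiset]
    rw [← hm]
    simp [Finsupp.degree, Finsupp.sum]
  obtain ⟨i, j, k, hij⟩ := Multiset.card_eq_three.mp h1
  have h2 : m = Finsupp.single i 1 + Finsupp.single j 1 + Finsupp.single k 1 := by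
    classical
    rw [← Finsupp.toMultiset_toFinsupp m,
      ← Finsupp.toMultiset_toFinsupp (Finsupp.single i 1 + Finsupp.single j 1 + Finsupp.single k 1)]
    congr 1
    rw [hij, map_add, map_add, Finsupp.toMultiset_single, Finsupp.toMultiset_single,
      Finsupp.toMultiset_single]
    simp [Multiset.insert_eq_cons, Multiset.singleton_add]
  refine ⟨i, j, k, ?_⟩
  rw [h2, X, X, X, C_mul_monomial, monomial_mul, monomial_mul]
  simp

theorem homInd (n : ℕ) (P : MvPolynomial (Fin N) R → Prop) (h0 : P 0)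
    (hadd : ∀ F G, P F → P G → P (F + G))
    (hmon : ∀ (m : Fin N →₀ ℕ) (c : R), m.degree = n → P (monomial m c))
    (F : MvPolynomial (Fin N) R) (hF : F.IsHomogeneous n) : P F := by
  rw [F.as_sum]
  refine Finset.sum_induction _ P hadd h0 ?_
  intro m hm
  apply hmon
  have := hF (mem_support_iff.mp hm)
  rw [← this]
  simp [Finsupp.degree, Finsupp.weight_apply, Finsupp.sum]

end

theorem tay : TAY := by
  intro R _ N F
  refine ⟨fun x y z s t => lf_lin F x y z s t, ?_, ?_⟩
  · refine homInd 2 (fun F => ∀ (x y : Fin N → R) (s t : R), lf F y x = lf F x y ∧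
      lf F x x = 2 * eval x F ∧ lf F (fun j => s * x j) y = s * lf F x y ∧
      eval (fun j => s * x j + t * y j) F =
        s ^ 2 * eval x F + s * t * lf F x y + t ^ 2 * eval y F) ?_ ?_ ?_ F
    · intro x y s t
      simp [lf_zero]
    · intro F G hF hG x y s t
      obtain ⟨a1, a2, a3, a4⟩ := hF x y s t
      obtain ⟨b1, b2, b3, b4⟩ := hG x y s t
      refine ⟨?_, ?_, ?_, ?_⟩
      · rw [lf_add, lf_add, a1, b1]
      · rw [lf_add, a2, b2, map_add]; ring
      · rw [lf_add, lf_add, a3, b3]; ring
      · rw [map_add, map_add, map_add, lf_add, a4, b4]; ring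
    · intro m c hm x y s t
      obtain ⟨i, j, hij⟩ := mon2 m c hm
      rw [hij]
      simp only [lf_mul, lf_C, lf_X, map_mul, eval_C, eval_X]
      refine ⟨?_, ?_, ?_, ?_⟩ <;> ring
  · refine homInd 3 (fun F => ∀ (x y : Fin N → R) (s t : R),
      lf F x x = 3 * eval x F ∧ lf F (fun j => s * x j) y = s ^ 2 * lf F x y ∧
      eval (fun j => s * x j + t * y j) F =
        s ^ 3 * eval x F + s ^ 2 * t * lf F x y + s * t ^ 2 * lf F y x + t ^ 3 * eval y F)
      ?_ ?_ ?_ F
    · intro x y s t
      simp [lf_zero]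
    · intro F G hF hG x y s t
      obtain ⟨a2, a3, a4⟩ := hF x y s t
      obtain ⟨b2, b3, b4⟩ := hG x y s t
      refine ⟨?_, ?_, ?_⟩
      · rw [lf_add, a2, b2, map_add]; ring
      · rw [lf_add, lf_add, a3, b3]; ring
      · rw [map_add, map_add, map_add, lf_add, lf_add, a4, b4]; ring
    · intro m c hm x y s t
      obtain ⟨i, j, k, hij⟩ := mon3 m c hm
      rw [hij]
      simp only [lf_mul, lf_C, lf_X, map_mul, eval_C, eval_X]
      refine ⟨?_, ?_, ?_⟩ <;> ring

end Pool.Agent.DQ2.H4
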